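import Pool.Agent.helper43.BMH.Spec

set_option autoImplicit false

namespace Pool.Agent.helper43.BMH

theorem t_fam (hr : ROW) (hd : DBL) : FAM := by
  classical
  intro Ω ι _ _ _ _ F lam D z
  have hc : (0 : ℝ) < (Fintype.card Ω : ℝ) := by exact_mod_cast Fintype.card_pos
  set A : SP (ι ⊕ ι) → Ω → ℝ := fun P w =>
    (cnt (F w) (lam / Real.sqrt 2) D (fun i => act P z (Sum.inl i) + act P z (Sum.inr i)) : ℝ)
    with hA
  set B : SP (ι ⊕ ι) → Ω → ℝ := fun P w =>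
    (cnt (F w) (lam / Real.sqrt 2) D (fun i => act P z (Sum.inl i) - act P z (Sum.inr i)) : ℝ)
    with hB
  have h1 : (∑ w : SP (ι ⊕ ι) × Ω × Ω,
      (cnt (rowAct w.1 (dbl (F w.2.1) (F w.2.2))) lam D z : ℝ))
      ≤ ∑ P : SP (ι ⊕ ι), (∑ w, A P w) * (∑ w, B P w) := by
    rw [Fintype.sum_prod_type]
    apply Finset.sum_le_sum
    intro P _
    rw [Fintype.sum_prod_type, Finset.sum_mul_sum]
    apply Finset.sum_le_sum
    intro w1 _
    apply Finset.sum_le_sum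
    intro w2 _
    have h2 := (hr (ι ⊕ ι) (dbl (F w1) (F w2)) P).2 lam D z
    have h3 := (hd ι (F w1) (F w2)).2 lam D (act P z)
    show (cnt (rowAct P (dbl (F w1) (F w2))) lam D z : ℝ) ≤ A P w1 * B P w2
    rw [h2]
    have h6 : A P w1 * B P w2 = ((cnt (F w1) (lam / Real.sqrt 2) D
        (fun i => act P z (Sum.inl i) + act P z (Sum.inr i)) * cnt (F w2) (lam / Real.sqrt 2) D
        (fun i => act P z (Sum.inl i) - act P z (Sum.inr i)) : ℕ) : ℝ) := by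
      rw [Nat.cast_mul]
    rw [h6]
    exact Nat.cast_le.2 h3
  have hcard : (Fintype.card (SP (ι ⊕ ι) × Ω × Ω) : ℝ)
      = (Fintype.card (SP (ι ⊕ ι)) : ℝ) * ((Fintype.card Ω : ℝ) * (Fintype.card Ω : ℝ)) := by
    rw [Fintype.card_prod (SP (ι ⊕ ι)) (Ω × Ω), Fintype.card_prod Ω Ω, Nat.cast_mul,
      Nat.cast_mul]
  have hS : (0 : ℝ) < (Fintype.card (SP (ι ⊕ ι)) : ℝ) := by exact_mod_cast Fintype.card_pos
  have h4 : (∑ P : SP (ι ⊕ ι),
      avgN F (lam / Real.sqrt 2) D (fun i => act P z (Sum.inl i) + act P z (Sum.inr i)) *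
      avgN F (lam / Real.sqrt 2) D (fun i => act P z (Sum.inl i) - act P z (Sum.inr i)))
      = (∑ P : SP (ι ⊕ ι), (∑ w, A P w) * (∑ w, B P w)) /
        ((Fintype.card Ω : ℝ) * (Fintype.card Ω : ℝ)) := by
    rw [Finset.sum_div]
    apply Finset.sum_congr rfl
    intro P _
    unfold avgN
    rw [div_mul_div_comm]
  rw [h4]
  unfold avgN
  rw [hcard, div_div, div_le_div_iff₀ (mul_pos hS (mul_pos hc hc)) (mul_pos (mul_pos hc hc) hS)]
  have h5 : (Fintype.card Ω : ℝ) * (Fintype.card Ω : ℝ) * (Fintype.card (SP (ι ⊕ ι)) : ℝ)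
      = (Fintype.card (SP (ι ⊕ ι)) : ℝ) * ((Fintype.card Ω : ℝ) * (Fintype.card Ω : ℝ)) := by
    ring
  rw [h5]
  exact mul_le_mul_of_nonneg_right h1 (mul_pos hS (mul_pos hc hc)).le

end Pool.Agent.helper43.BMH
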