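import Pool.Agent.helper43.BMH.Spec

set_option autoImplicit false

namespace Pool.Agent.helper43.BMH

open scoped ENNReal
open Pool.Agent.helper75.BM

theorem HO1_aux {d : ℕ} (v : Fin d → ℝ) (r : ℝ) (h1 : 1 ≤ r) (h2 : r < 2) :
    ∑ i, |v i| ^ r ≤ (∑ i, |v i|) ^ (2 - r) * (∑ i, v i ^ 2) ^ (r - 1) := by
  rcases h1.eq_or_lt with h | h
  · rw [← h]
    norm_num
  · have hc : Real.HolderConjugate (1 / (2 - r)) (1 / (r - 1)) := by
      rw [Real.holderConjugate_iff]
      refine ⟨?_, ?_⟩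
      · rw [lt_div_iff₀ (by linarith)]
        linarith
      · rw [one_div, one_div, inv_inv, inv_inv]
        ring
    have h3 := Real.inner_le_Lp_mul_Lq_of_nonneg Finset.univ hc
      (f := fun i => |v i| ^ (2 - r)) (g := fun i => |v i| ^ (2 * (r - 1)))
      (fun i _ => Real.rpow_nonneg (abs_nonneg _) _) (fun i _ => Real.rpow_nonneg (abs_nonneg _) _)
    have e1 : ∀ i, |v i| ^ (2 - r) * |v i| ^ (2 * (r - 1)) = |v i| ^ r := by
      intro i
      rw [← Real.rpow_add_of_nonneg (abs_nonneg _) (by linarith) (by linarith)]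
      congr 1
      ring
    have e2 : ∀ i, (|v i| ^ (2 - r)) ^ (1 / (2 - r)) = |v i| := by
      intro i
      rw [← Real.rpow_mul (abs_nonneg _), mul_one_div_cancel (by linarith), Real.rpow_one]
    have e3 : ∀ i, (|v i| ^ (2 * (r - 1))) ^ (1 / (r - 1)) = v i ^ 2 := by
      intro i
      have e4 : 2 * (r - 1) * (1 / (r - 1)) = 2 := by
        rw [mul_assoc, mul_one_div_cancel (by linarith), mul_one]
      rw [← Real.rpow_mul (abs_nonneg _), e4, Real.rpow_two, sq_abs]
    simp only [e1, e2, e3, one_div_one_div] at h3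
    exact h3

theorem t_ho1 : HO1 := by
  intro p _ hp d v
  have hp1 : (1 : ℝ≥0∞) ≤ p := Fact.out
  have hpt : p ≠ ⊤ := (hp.trans (by norm_num)).ne
  have hr1 : 1 ≤ p.toReal := by
    have := (ENNReal.toReal_le_toReal (by norm_num) hpt).2 hp1
    simpa using this
  have hr2 : p.toReal < 2 := by
    have := (ENNReal.toReal_lt_toReal hpt (by norm_num)).2 hp
    simpa using this
  set r := p.toReal with hr
  have hr0 : 0 < r := by linarith
  have e0 : (1 / p).toReal = 1 / r := by
    rw [one_div, ENNReal.toReal_inv, one_div]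
  have ha : 0 ≤ ∑ i, |v i| := Finset.sum_nonneg fun i _ => abs_nonneg _
  have hb : 0 ≤ ∑ i, v i ^ 2 := Finset.sum_nonneg fun i _ => sq_nonneg _
  rw [nrm_eq hpt, e0, ← hr]
  have h1 := Real.rpow_le_rpow (Finset.sum_nonneg fun i _ => Real.rpow_nonneg (abs_nonneg _) _)
    (HO1_aux v r hr1 hr2) (by positivity : 0 ≤ 1 / r)
  refine h1.trans (le_of_eq ?_)
  rw [Real.mul_rpow (Real.rpow_nonneg ha _) (Real.rpow_nonneg hb _), ← Real.rpow_mul ha,
    ← Real.rpow_mul hb, Real.sqrt_eq_rpow, ← Real.rpow_mul hb]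
  congr 1
  · congr 1
    field_simp
  · congr 1
    field_simp

end Pool.Agent.helper43.BMH
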